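import Pool.Agent.Lib.MP_eb4ae8_co.ASk
import Pool.Agent.Lib.MP_eb4ae8_co.Ge3

namespace Pool.Agent.Results.MP_eb4ae8_co.AlmostSimple

open Pool.Agent.Lib.MP_eb4ae8_co

/-- Let `q` not be a prime power with `r = q^2 - q + 1` prime, let `Γ` be a distance-regular graph
with array `A(q)` and `G` a group of automorphisms which is vertex-transitive or has order divisible
by `r`. Then `G` has a simple normal subgroup `T` of order divisible by `r` which contains its
centraliser, and `G / T` is cyclic of order dividing `q^2 - q`. If `G` is vertex-transitive then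
`T` is not abelian, so `G` is almost simple. -/
theorem result {V : Type*} [Finite V] (Γ : SimpleGraph V) (q : ℕ) (hA : HasArray Γ q)
    (hq : ¬ IsPrimePow q) (hr : (q ^ 2 - q + 1).Prime)
    (G : Subgroup (Γ ≃g Γ)) (hG : VertexTransitive G ∨ (q ^ 2 - q + 1) ∣ Nat.card G) :
    ∃ (T : Subgroup G) (_ : T.Normal), IsSimpleGroup T ∧ (q ^ 2 - q + 1) ∣ Nat.card T ∧
      Subgroup.centralizer (T : Set G) ≤ T ∧ IsCyclic (G ⧸ T) ∧
      Nat.card (G ⧸ T) ∣ q ^ 2 - q ∧ (VertexTransitive G → ¬ ∀ a b : T, a * b = b * a) := by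
  have h3 : 3 ≤ q := three_le hA
  have h6 : 6 ≤ q := by
    by_contra hlt
    have : q = 3 ∨ q = 4 ∨ q = 5 := by omega
    rcases this with rfl | rfl | rfl
    · exact hq Nat.prime_three.isPrimePow
    · exact hq ((isPrimePow_nat_iff 4).2 ⟨2, 2, Nat.prime_two, by norm_num, by norm_num⟩)
    · exact hq Nat.prime_five.isPrimePow
  exact simple_normal h6 hA hq hr G hG

end Pool.Agent.Results.MP_eb4ae8_co.AlmostSimple
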