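import Pool.Agent.Lib.MP_eb4ae8_co.ComD
import Pool.Agent.Lib.MP_eb4ae8_co.Cen
import Pool.Agent.Lib.MP_eb4ae8_co.Ge3

namespace Pool.Agent.Results.MP_eb4ae8_co.CommutingNormals

open Pool.Agent.Lib.MP_eb4ae8_co

/-- Let `Γ` be a distance-regular graph with array `A(q)`, `q ≥ 4`, and let `N`, `C` be nontrivial
groups of automorphisms which commute elementwise and are normalised by a vertex-transitive group
of automorphisms. Then neither is vertex-transitive, and one of them acts semiregularly and has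
odd order. -/
theorem result {V : Type*} [Finite V] (Γ : SimpleGraph V) (q : ℕ) (hq : 4 ≤ q)
    (hA : HasArray Γ q) (G : Subgroup (Γ ≃g Γ)) (hG : VertexTransitive G)
    (N C : Subgroup (Γ ≃g Γ)) (hN : ∀ g ∈ G, ∀ c ∈ N, g * c * g⁻¹ ∈ N)
    (hC : ∀ g ∈ G, ∀ c ∈ C, g * c * g⁻¹ ∈ C) (hcomm : ∀ a ∈ N, ∀ b ∈ C, a * b = b * a)
    (hN1 : N ≠ ⊥) (hC1 : C ≠ ⊥) :
    ¬ VertexTransitive N ∧ ¬ VertexTransitive C ∧
      ((Semiregular N ∧ Odd (Nat.card N)) ∨ (Semiregular C ∧ Odd (Nat.card C))) := by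
  have h3 : 3 ≤ q := three_le hA
  refine ⟨fun hNt => hC1 ?_, fun hCt => hN1 ?_, ?_⟩
  · have h := centralizer_trivial h3 hA N hNt
    rw [eq_bot_iff, ← h]
    intro c hc
    rw [Subgroup.mem_centralizer_iff]
    intro a ha
    exact hcomm a ha c hc
  · have h := centralizer_trivial h3 hA C hCt
    rw [eq_bot_iff, ← h]
    intro a ha
    rw [Subgroup.mem_centralizer_iff]
    intro c hc
    exact (hcomm a ha c hc).symm
  · rcases commuting_normals' hq hA G hG N C hN hC hcomm with h | h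
    · exact Or.inl ⟨h, semiregular_odd h3 hA N h⟩
    · exact Or.inr ⟨h, semiregular_odd h3 hA C h⟩

end Pool.Agent.Results.MP_eb4ae8_co.CommutingNormals
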