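import Pool.Agent.Lib.MP_eb4ae8_co.LargeB
import Pool.Agent.Lib.MP_eb4ae8_co.Ge3

namespace Pool.Agent.Results.MP_eb4ae8_co.LargePrimeOrder

open Pool.Agent.Lib.MP_eb4ae8_co

/-- Let `Γ` be a distance-regular graph with array `A(q)` and let `p > q + 1` be a prime dividing
the order of the automorphism group. Then `p` divides `q^2 - q + 1`, `p^2` does not divide the
order of the automorphism group, and automorphisms of order `p` fix no vertex. -/
theorem result {V : Type*} [Finite V] (Γ : SimpleGraph V) (q : ℕ) (hA : HasArray Γ q)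
    (p : ℕ) (hp : p.Prime) (hlt : q + 1 < p) (hdvd : p ∣ Nat.card (Γ ≃g Γ)) :
    p ∣ q ^ 2 - q + 1 ∧ ¬ p ^ 2 ∣ Nat.card (Γ ≃g Γ) ∧
      ∀ g : Γ ≃g Γ, orderOf g = p → ∀ x, g x ≠ x :=
  large_prime_once (three_le hA) hA p hp hlt hdvd

end Pool.Agent.Results.MP_eb4ae8_co.LargePrimeOrder
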