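import Pool.Agent.Lib.MP_eb4ae8_co.Fin5
import Pool.Agent.Lib.MP_eb4ae8_co.Ge3

namespace Pool.Agent.Results.MP_eb4ae8_co.SolubleRadical

open Pool.Agent.Lib.MP_eb4ae8_co

/-- Let `Γ` be a distance-regular graph with array `A(q)`, `q` not a prime power. Then every
vertex-transitive group of automorphisms of `Γ` has trivial soluble radical. -/
theorem result {V : Type*} [Finite V] (Γ : SimpleGraph V) (q : ℕ) (hA : HasArray Γ q)
    (hq : ¬ IsPrimePow q) (G : Subgroup (Γ ≃g Γ)) (hG : VertexTransitive G)
    (N : Subgroup G) (hN : N.Normal) (hs : Group.IsSolvable N) : N = ⊥ :=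
  soluble_radical (three_le hA) hA hq G hG N hN hs

end Pool.Agent.Results.MP_eb4ae8_co.SolubleRadical
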